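import Mathlib
import Pool.Prelude.Def_F_c31e40fa
import Pool.Agent.U608.ML.L6
import Pool.Agent.U608.ML.L7

/-!
# The Laurent coefficients of the Mandelbrot set near the powers of two

Let `ψ` be the conformal map from the exterior of the unit disc onto the complement of the
Mandelbrot set `M`, and `ψ z = z + ∑ b_m z ^ (-m)`. Absolute convergence of the series on the unit
circle would imply that `M` is locally connected. We show that the discrete Hilbert transform of the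
sequence `m² |b_m|²` at the powers of two is given by the dynamics inside of `M`:

`∑_{l ≠ 2^n} l² |b_l|² / (2^n - l) = (1 / π) ∫_M |f_c^n (c)|² dA(c) + o(1)`,   `f_c (z) = z² + c`,

and the right-hand side is at least `5 / 96 - o(1)`. More generally for the coefficients of `G ∘ ψ`,
for every polynomial `G`, with the weight `|G'|²` in the integral.

Method: `P_n (c) = f_c^n (c)` is the Faber polynomial of degree `2^n` of `M`. The area formula for a
polynomial `Q` with `Q' = P_n G'` (it is exact on the unit circle, `L1.lean`) gives the mean square of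
`Q'` over `M` in terms of the coefficients of `Q ∘ ψ`, which agree with those of `z ^ (2^n) (G ∘ ψ)'`
up to the function `(P_n ∘ ψ - z ^ (2^n)) (G ∘ ψ)'`; its dual Dirichlet norm tends to zero.
-/

set_option autoImplicit false

open Filter Topology MeasureTheory Polynomial N62a1eb23

namespace Pool.Agent.Results.MP_c6f924_an.HilbertTransformLaw

open Pool.Agent.H713R2

/-- The quadratic polynomial `z ^ 2 + c`. -/
def f (c : ℂ) : ℂ → ℂ := fun z => z ^ 2 + c

/-- The mean square over the Mandelbrot set, with the weight `‖g‖ ^ 2`, of the `n`-th point of the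
orbit of the critical value `c` under `z ^ 2 + c`. -/
noncomputable def meanSquare (g : ℂ[X]) (n : ℕ) : ℝ :=
  1 / Real.pi * ∫ c in mandelbrotSet, ‖g.eval c‖ ^ 2 * ‖(f c)^[n] c‖ ^ 2

theorem P_eq (n : ℕ) (c : ℂ) : Pool.Agent.H712R2.P 2 (n + 1) c = (f c)^[n] c := by
  unfold Pool.Agent.H712R2.P
  rw [Function.iterate_succ_apply]
  have h : Pool.Agent.H712R2.fc 2 c = f c := rfl
  rw [h]
  congr 1
  show (0 : ℂ) ^ 2 + c = c
  ring

/-- **The Hilbert transform of `l ^ 2 * ‖b l‖ ^ 2` at the powers of two.** (The term `l = 2 ^ n` of the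
series has denominator zero and is zero by Lean's convention `x / 0 = 0`.) -/
theorem result :
    (∃ (ψ : ℂ → ℂ) (b : ℕ → ℂ), IsExteriorMap mandelbrotSet ψ ∧ HasLaurent ψ b) ∧
    ∀ ψ : ℂ → ℂ, IsExteriorMap mandelbrotSet ψ →
      (∀ (G H : ℂ[X]) (γ : ℕ → ℂ),
        (∀ z : ℂ, 1 < ‖z‖ → HasSum (fun m : ℕ => γ m / z ^ m) (G.eval (ψ z) - H.eval z)) →
        (∀ n : ℕ, Summable fun l : ℕ => (l : ℝ) ^ 2 * ‖γ l‖ ^ 2 / (2 ^ n - l)) ∧
        Tendsto (fun n : ℕ => ∑' l : ℕ, (l : ℝ) ^ 2 * ‖γ l‖ ^ 2 / (2 ^ n - l) -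
          meanSquare (derivative G) n) atTop (𝓝 0)) ∧
      ∀ b : ℕ → ℂ, HasLaurent ψ b →
        (∀ n : ℕ, 1 ≤ n → 5 / 96 ≤ meanSquare 1 n ∧
          meanSquare 1 n ≤ 1 / (2 ^ n + 1) +
            ∑ l ∈ Finset.range (2 ^ (n + 1) - 2), (l : ℝ) ^ 2 * ‖b l‖ ^ 2 / (2 ^ n - l)) ∧
        (∀ B : ℝ, ∃ (K : ℕ) (c : ℝ), 0 < c ∧ ∀ᶠ n : ℕ in atTop,
          ∑ l ∈ Finset.range (2 ^ n), (l : ℝ) ^ 2 * ‖b l‖ ^ 2 / (2 ^ n - l) ≤ B →
          ∃ l : ℕ, 2 ^ n ≤ l + K ∧ l < 2 ^ n ∧ c ≤ l * ‖b l‖) ∧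
        (Tendsto (fun l : ℕ => (l : ℝ) * ‖b l‖) atTop (𝓝 0) →
          Tendsto (fun n : ℕ => ∑ l ∈ Finset.range (2 ^ n),
            (l : ℝ) ^ 2 * ‖b l‖ ^ 2 / (2 ^ n - l)) atTop atTop) := by
  obtain ⟨β, hβ⟩ := exists_beta (d := 2) le_rfl
  refine ⟨⟨_, _, exteriorMap_of_beta hβ, laurent_of_beta hβ⟩, ?_⟩
  intro ψ hψ
  have hms : ∀ n, meanSquare 1 n = 1 / Real.pi *
      ∫ c in multibrotSet 2, ‖Pool.Agent.H712R2.P 2 (n + 1) c‖ ^ 2 := by
    intro n
    unfold meanSquare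
    simp only [P_eq, eval_one, norm_one, one_pow, one_mul]
  refine ⟨?_, ?_⟩
  · intro G H γ h
    have h1 := Pool.Agent.U608.ML.law (d := 2) le_rfl hψ h
    simp only [Nat.cast_ofNat, P_eq] at h1
    exact h1
  · intro b hb
    have hdich : ∀ B : ℝ, ∃ (K : ℕ) (c : ℝ), 0 < c ∧ ∀ᶠ n : ℕ in atTop,
          ∑ l ∈ Finset.range (2 ^ n), (l : ℝ) ^ 2 * ‖b l‖ ^ 2 / (2 ^ n - l) ≤ B →
          ∃ l : ℕ, 2 ^ n ≤ l + K ∧ l < 2 ^ n ∧ c ≤ l * ‖b l‖ := by
      intro B
      have h1 := Pool.Agent.U608.ML.dichotomy (d := 2) le_rfl hψ hb B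
      simp only [Nat.cast_ofNat] at h1
      exact h1
    refine ⟨fun n hn => ⟨?_, ?_⟩, hdich, ?_⟩
    · rw [hms]
      exact Pool.Agent.U608.ML.mean_lower hn
    · rw [hms]
      have h1 := Pool.Agent.U608.ML.ineq (d := 2) le_rfl hψ hb hn
      simp only [Nat.cast_ofNat] at h1
      exact h1
    · intro ht
      rw [tendsto_atTop]
      intro B
      obtain ⟨K, c, hc, h1⟩ := hdich B
      obtain ⟨M, hM⟩ := eventually_atTop.1 (ht.eventually (gt_mem_nhds hc))
      have h2 : ∀ᶠ n : ℕ in atTop, M + K ≤ 2 ^ n :=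
        (tendsto_pow_atTop_atTop_of_one_lt (one_lt_two : (1 : ℕ) < 2)).eventually_ge_atTop _
      filter_upwards [h1, h2] with n h3 h4
      by_contra h5
      push Not at h5
      obtain ⟨l, h6, h7, h8⟩ := h3 h5.le
      have h9 := hM l (by omega)
      linarith

end Pool.Agent.Results.MP_c6f924_an.HilbertTransformLaw
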