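import Mathlib
import Pool.Prelude.Def_F_c31e40fa
import Pool.Agent.Y736.RN.L
import Pool.Agent.U256.RR.Cx

set_option autoImplicit false

/-!
# The Mandelbrot set near a parameter and the largest derivatives along its critical orbit

Let `c` be a parameter of the Mandelbrot set `M`. We bound the harmonic measure and Green's function
of `ℂ ∖ M` on small discs about `c` by the exponential rate `A` of the largest derivatives of the
iterates of `f_c` over long blocks of the critical orbit: these quantities are `O(r ^ κ)` for all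
`κ < log 2 / A`. If `A = 0` then they decay faster than every power of `r`, and, if `M` is
locally connected, the Caratheodory loop is not Hoelder continuous of any exponent at `c`. This is the
case for ALL REAL infinitely renormalizable parameters, of bounded or unbounded type: for them we
prove that the derivatives of the iterates grow subexponentially along the critical orbit. It is
also the case for all complex infinitely renormalizable parameters whose renormalizations of
infinitely many periods `p` have a geometry bounded by `exp (o(p))`.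

The proof for real parameters does not use a priori bounds. If the periodic intervals
`[-β_k, β_k]` are exponentially small with respect to their periods `p_k` for all large `k` then the
returns of the critical orbit to these intervals make `f_c^(p_k)` a contraction of `[-β_k, β_k]`,
which is impossible. So `β_k > exp (-ε p_k)` infinitely often, and the distortion of `f_c^(p_k - 1)` on
`f_c [-β_k, β_k]` is at most `(R / β_k) ^ 2`, because the images are disjoint intervals off
`[-β_k, β_k]` and the measure `|dt / t|` of the rest of the line is `2 log (R / β_k)`.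
-/

open Filter Topology Set Metric MeasureTheory Complex N62a1eb23

namespace Pool.Agent.Results.MP_c6f924_an.MaximalExpansion

open Pool.Agent.H713R2

/-- The map `z ↦ z ^ 2 + c`. -/
def f (c : ℂ) : ℂ → ℂ := fun z => z ^ 2 + c

/-- The point `f_c^n (0)` of the critical orbit. -/
def P (n : ℕ) (c : ℂ) : ℂ := (f c)^[n] 0

/-- The angles `t ∈ (0, 2π]` of the external rays landing at distance less than `r` from `c₀`. -/
def angles (ψ : ℂ → ℂ) (c₀ : ℂ) (r : ℝ) : Set ℝ :=
  {t | t ∈ Ioc 0 (2 * Real.pi) ∧ ∃ ζ ∈ ball c₀ r,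
    Tendsto (fun ρ : ℝ => ψ (ρ * exp (t * I))) (𝓝[>] 1) (𝓝 ζ)}

/-- The harmonic measure (from infinity) of the disc of radius `r`, up to the factor `2π`. -/
noncomputable def harm (ψ : ℂ → ℂ) (c₀ : ℂ) (r : ℝ) : ℝ := (volume (angles ψ c₀ r)).toReal

/-- The maximum over a disc of Green's function of the complement of the Mandelbrot set: Green's
function is `log ‖w‖` at the point `ψ w`. -/
noncomputable def green (ψ : ℂ → ℂ) (c₀ : ℂ) (r : ℝ) : ℝ :=
  sSup {x | ∃ w : ℂ, 1 < ‖w‖ ∧ ‖ψ w - c₀‖ ≤ r ∧ Real.log ‖w‖ = x}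

/-- The largest derivatives over blocks of the critical orbit grow at most with the rate `A`: for
every `a > A` there are infinitely many `p` such that all the derivatives of `f_c^p` at the points
`f_c^(n p) (0)` are at most `exp (a p)`. -/
def ExpansionAtMost (c : ℂ) (A : ℝ) : Prop :=
  ∀ a : ℝ, A < a → {p : ℕ | ∀ n : ℕ, ‖deriv ((f c)^[p]) (P (n * p) c)‖ ≤ Real.exp (a * p)}.Infinite

/-- Subexponential geometry: for every `ε > 0` there are infinitely many `p` such that the points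
`f_c^(n p) (0)` have a common distance `r` from the complement of a set `U` whose image under `f_c^p`
has a diameter at most `exp (ε p) r`. This holds if `f_c` is infinitely renormalizable and has
quadratic-like renormalizations `f_c^p : U → f_c^p (U)` of infinitely many periods `p` whose
geometry is bounded, or bounded by `exp (ε p)`. -/
def SubexponentialGeometry (c : ℂ) : Prop :=
  ∀ ε : ℝ, 0 < ε → {p : ℕ | ∃ (U : Set ℂ) (r : ℝ), 0 < r ∧ (∀ n : ℕ, ball (P (n * p) c) r ⊆ U) ∧
    ∀ z ∈ U, ∀ z' ∈ U, dist ((f c)^[p] z) ((f c)^[p] z') ≤ Real.exp (ε * p) * r}.Infinite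

/-- The map `x ↦ x ^ 2 + c` of the real line. -/
def fR (c : ℝ) : ℝ → ℝ := fun x => x ^ 2 + c

/-- The real parameter `c` is infinitely renormalizable: there are periods `p 0`, `p 1`, …, each a
proper divisor of the next one, and numbers `β 0 > β 1 > … > 0` such that for every `k` the map
`f_c^(p k)` maps the interval `[-β k, β k]` into itself, and any two of the `p k` intervals
`f_c^i [-β k, β k]`, `i < p k`, have at most one point in common. -/
def InfinitelyRenormalizable (c : ℝ) : Prop :=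
  ∃ (p : ℕ → ℕ) (β : ℕ → ℝ), ∀ k : ℕ, 0 < p k ∧ p k ∣ p (k + 1) ∧ p k < p (k + 1) ∧
    0 < β k ∧ β (k + 1) < β k ∧
    MapsTo ((fR c)^[p k]) (Icc (-β k) (β k)) (Icc (-β k) (β k)) ∧
    ∀ i j : ℕ, i < j → j < p k →
      (((fR c)^[i] '' Icc (-β k) (β k)) ∩ ((fR c)^[j] '' Icc (-β k) (β k))).Subsingleton

/-- the loop at a point where harmonic measure is small -/
theorem loop_osc {ψ : ℂ → ℂ} {c₀ : ℂ} {κ p : ℝ} (hp0 : 0 < p) (hκp : 1 < p * κ)
    (hvol : ∀ᶠ r : ℝ in 𝓝[>] 0, harm ψ c₀ r < r ^ κ)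
    {F : ℂ → ℂ} (hF : ContinuousOn F {w | 1 ≤ ‖w‖}) (hE : ∀ w, 1 < ‖w‖ → F w = ψ w) {ζ : ℂ}
    (hζ : ‖ζ‖ = 1) (hFζ : F ζ = c₀) :
    ∀ᶠ δ : ℝ in 𝓝[>] 0, ∃ ξ : ℂ, ‖ξ‖ = 1 ∧ ‖ξ - ζ‖ ≤ δ ∧ δ ^ p ≤ ‖F ξ - F ζ‖ := by
  have hpi := Real.pi_pos
  -- the angle of `ζ`
  obtain ⟨θ₀, hθ₀, hθζ⟩ : ∃ θ₀ : ℝ, θ₀ ∈ Ioc 0 (2 * Real.pi) ∧ exp (θ₀ * I) = ζ := by
    have h1 : exp ((arg ζ : ℝ) * I) = ζ := by
      have := Complex.norm_mul_exp_arg_mul_I ζ
      rwa [hζ, ofReal_one, one_mul] at this
    rcases le_or_gt (arg ζ) 0 with h2 | h2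
    · refine ⟨arg ζ + 2 * Real.pi, ⟨?_, by linarith⟩, ?_⟩
      · have := Complex.neg_pi_lt_arg ζ
        linarith
      · push_cast
        rw [add_mul, Complex.exp_add, Complex.exp_two_pi_mul_I, mul_one]
        exact h1
    · exact ⟨arg ζ, ⟨h2, by linarith [Complex.arg_le_pi ζ]⟩, h1⟩
  have hlim : Tendsto (fun δ : ℝ => δ ^ p) (𝓝[>] 0) (𝓝[>] 0) := by
    rw [tendsto_nhdsWithin_iff]
    refine ⟨?_, ?_⟩
    · have h1 := (Real.continuousAt_rpow_const 0 p (Or.inr hp0.le)).tendsto.mono_left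
        (nhdsWithin_le_nhds (s := Ioi (0 : ℝ)))
      rwa [Real.zero_rpow hp0.ne'] at h1
    · filter_upwards [Pool.Agent.Y736.HD.ev_pos] with δ hδ
      exact Real.rpow_pos_of_pos hδ _
  filter_upwards [Pool.Agent.Y736.HD.ev_pos, Pool.Agent.Y736.HD.ev_lt one_pos,
    Pool.Agent.Y736.HD.ev_lt hθ₀.1, hlim.eventually hvol] with δ hδ0 hδ1 hδ2 hδ3
  by_contra hcon
  push Not at hcon
  -- an interval of angles
  have hsub : Ioc (θ₀ - δ) θ₀ ⊆ Pool.Agent.Y736.HD.Ang ψ c₀ (δ ^ p) := by
    intro θ hθ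
    refine ⟨⟨by linarith [hθ.1], hθ.2.trans hθ₀.2⟩, F (exp (θ * I)), ?_, ?_⟩
    · rw [mem_ball, dist_eq_norm, ← hFζ]
      apply hcon
      · exact Complex.norm_exp_ofReal_mul_I θ
      · rw [← hθζ]
        have h1 : exp (θ * I) - exp (θ₀ * I) = exp (θ₀ * I) * (exp (I * ((θ - θ₀ : ℝ) : ℂ)) - 1) := by
          rw [mul_sub, ← Complex.exp_add, mul_one]
          congr 2
          push_cast
          ring
        rw [h1, norm_mul, Complex.norm_exp_ofReal_mul_I, one_mul]
        refine (Real.norm_exp_I_mul_ofReal_sub_one_le).trans ?_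
        rw [Real.norm_eq_abs, abs_le]
        constructor <;> linarith [hθ.1, hθ.2]
    · have h1 : ContinuousWithinAt F {w | 1 ≤ ‖w‖} (exp (θ * I)) :=
        hF _ (by
          show 1 ≤ ‖exp (θ * I)‖
          rw [Complex.norm_exp_ofReal_mul_I])
      have h2 : Tendsto (fun ρ : ℝ => (ρ : ℂ) * exp (θ * I)) (𝓝[>] 1)
          (𝓝[{w | 1 ≤ ‖w‖}] (exp (θ * I))) := by
        rw [tendsto_nhdsWithin_iff]
        refine ⟨?_, ?_⟩
        · have h3 : Continuous fun ρ : ℝ => (ρ : ℂ) * exp (θ * I) := by fun_prop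
          have h4 := (h3.tendsto 1).mono_left (nhdsWithin_le_nhds (s := Ioi (1 : ℝ)))
          simpa using h4
        · filter_upwards [self_mem_nhdsWithin] with ρ hρ
          have hρ' : 1 < ρ := hρ
          show 1 ≤ ‖(ρ : ℂ) * exp (θ * I)‖
          rw [norm_mul, Complex.norm_exp_ofReal_mul_I, mul_one, Complex.norm_real,
            Real.norm_of_nonneg (by linarith)]
          exact hρ'.le
      refine (h1.tendsto.comp h2).congr' ?_
      filter_upwards [self_mem_nhdsWithin] with ρ hρ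
      have hρ' : 1 < ρ := hρ
      apply hE
      rw [norm_mul, Complex.norm_exp_ofReal_mul_I, mul_one, Complex.norm_real,
        Real.norm_of_nonneg (by linarith)]
      exact hρ'
  have h1 : δ ≤ harm ψ c₀ (δ ^ p) := by
    have h2 := ENNReal.toReal_mono (Pool.Agent.Y736.HD.vol_Ang_ne ψ c₀ (δ ^ p)) (measure_mono hsub)
    rw [Real.volume_Ioc, ENNReal.toReal_ofReal (by linarith)] at h2
    have h3 : δ ≤ (volume (Pool.Agent.Y736.HD.Ang ψ c₀ (δ ^ p))).toReal := by linarith
    exact h3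
  have h2 := h1.trans_lt hδ3
  rw [← Real.rpow_mul hδ0.le] at h2
  have h3 : δ ^ (p * κ) < δ ^ (1 : ℝ) := Real.rpow_lt_rpow_of_exponent_gt hδ0 hδ1 hκp
  rw [Real.rpow_one] at h3
  linarith

/-- slow expansion: Green's function is small -/
theorem not_big {ψ : ℂ → ℂ} (hψ : IsExteriorMap (multibrotSet 2) ψ) {c : ℂ}
    (hc : c ∈ multibrotSet 2) {A : ℝ} (hA : 0 ≤ A) (h : ExpansionAtMost c A) {κ : ℝ} (hκ : 0 < κ)
    (hκA : κ * A < Real.log 2) : ¬ Pool.Agent.Y736.RN.Big ψ κ c := by
  intro hB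
  have hlog2 : 0 < Real.log 2 := Real.log_pos (by norm_num)
  -- an exponent between
  obtain ⟨a, ha1, ha2⟩ : ∃ a, A < a ∧ κ * a < Real.log 2 := by
    have h1 : A < Real.log 2 / κ := by
      rw [lt_div_iff₀ hκ]
      linarith
    obtain ⟨a, h2, h3⟩ := exists_between h1
    refine ⟨a, h2, ?_⟩
    rw [lt_div_iff₀ hκ] at h3
    linarith
  have ha0 : 0 < a := by linarith
  obtain ⟨θ, hθ⟩ : ∃ θ, θ = Real.log 2 - κ * a := ⟨_, rfl⟩
  have hθ0 : 0 < θ := by rw [hθ]; linarith
  obtain ⟨k, hk⟩ := exists_nat_gt (κ * Real.log 4 / θ)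
  obtain ⟨p, hp, hpk⟩ := (h a ha1).exists_gt k
  rw [div_lt_iff₀ hθ0] at hk
  have h1 : (k : ℝ) < p := by exact_mod_cast hpk
  have hp0 : (0 : ℝ) ≤ p := p.cast_nonneg
  obtain ⟨C, hC⟩ : ∃ C, C = Real.exp (a * p) := ⟨_, rfl⟩
  have hC1 : 1 ≤ C := by
    rw [hC]
    exact Real.one_le_exp (by positivity)
  have hlogC0 : 0 < Real.log (C + 3) := Real.log_pos (by linarith)
  have hlogC : Real.log (C + 3) ≤ a * p + Real.log 4 := by
    have h2 : C + 3 ≤ C * 4 := by linarith
    have h3 := Real.log_le_log (by linarith) h2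
    rw [Real.log_mul (by linarith) (by norm_num)] at h3
    have h4 : Real.log C = a * p := by rw [hC, Real.log_exp]
    linarith
  refine Pool.Agent.Y736.RN.not_fast (d := 2) le_rfl hc (p := p) (C := C) (by linarith) ?_
    (Pool.Agent.Y736.RN.fast_of_big (d := 2) le_rfl (by omega) hψ hκ hlogC0 ?_ hB isBounded_ball)
  · intro i
    have h2 := hp i
    rw [← hC, Nat.mul_comm i p] at h2
    exact h2
  · push_cast
    calc Real.log (C + 3) * κ ≤ (a * p + Real.log 4) * κ := by gcongr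
      _ = p * (κ * a) + κ * Real.log 4 := by ring
      _ < p * Real.log 2 := by
        have h2 : p * (κ * a) = p * Real.log 2 - p * θ := by rw [hθ]; ring
        nlinarith

/-- **Subexponential geometry gives subexponential expansion.** -/
theorem expansion_of_geometry {c : ℂ} (h : SubexponentialGeometry c) : ExpansionAtMost c 0 := by
  intro a ha
  refine (h a ha).mono ?_
  rintro p ⟨U, r, hr, hball, hdiam⟩ n
  have h1 := Pool.Agent.Y736.RN.deriv_le' (d := 2) (c := c) (p := p) (U := U)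
    (C := Real.exp (a * p)) hr hball (fun z hz z' hz' => by
      have h2 := hdiam z hz z' hz'
      rw [dist_eq_norm] at h2
      exact h2) n
  rw [Nat.mul_comm p n] at h1
  exact h1

/-- **Real infinitely renormalizable parameters: subexponential growth of the derivatives.** -/
theorem real_growth {c : ℝ} (h : InfinitelyRenormalizable c) :
    (c : ℂ) ∈ mandelbrotSet ∧ ∀ a : ℝ, 0 < a → ∀ᶠ n : ℕ in atTop, ∀ m : ℕ,
      ‖deriv ((f c)^[n]) (P m c)‖ ≤ Real.exp (a * n) := by
  obtain ⟨p, β, h⟩ := h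
  have hT : Pool.Agent.U256.RR.Tower 2 c p β := h
  refine ⟨hT.mem, fun a ha => ?_⟩
  obtain ⟨N, hN⟩ := hT.all_blocks le_rfl ha
  filter_upwards [eventually_ge_atTop N] with n hn m
  have h1 : P m c = (((Pool.Agent.U256.RR.g 2 c)^[m] 0 : ℝ) : ℂ) := by
    have := Pool.Agent.U256.RR.iter_ofReal 2 c m 0
    rwa [ofReal_zero] at this
  rw [h1]
  exact (Pool.Agent.U256.RR.norm_deriv 2 c n _).le.trans (hN n hn m)

/-- **Real infinitely renormalizable parameters: no expansion.** -/
theorem expansion_of_real {c : ℝ} (h : InfinitelyRenormalizable c) : ExpansionAtMost c 0 := by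
  intro a ha
  have h1 := (real_growth h).2 a ha
  rw [← Nat.cofinite_eq_atTop, Filter.eventually_cofinite] at h1
  have h2 : {n : ℕ | ∀ m : ℕ, ‖deriv ((f c)^[n]) (P m c)‖ ≤ Real.exp (a * n)} ⊆
      {p : ℕ | ∀ n : ℕ, ‖deriv ((f c)^[p]) (P (n * p) c)‖ ≤ Real.exp (a * p)} :=
    fun n hn i => hn (i * n)
  refine Set.Infinite.mono h2 ?_
  intro hfin
  have h3 := hfin.union h1
  refine Set.infinite_univ (h3.subset ?_)
  intro n _
  by_cases hn : ∀ m : ℕ, ‖deriv ((f c)^[n]) (P m c)‖ ≤ Real.exp (a * n)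
  · exact Or.inl hn
  · exact Or.inr hn

/-- **The Mandelbrot set near a parameter and the expansion along its critical orbit.** -/
theorem result :
    (∃ ψ : ℂ → ℂ, IsExteriorMap mandelbrotSet ψ) ∧
    -- real infinitely renormalizable parameters (of any type)
    (∀ c : ℝ, InfinitelyRenormalizable c → (c : ℂ) ∈ mandelbrotSet ∧ ExpansionAtMost c 0 ∧
      ∀ a : ℝ, 0 < a → ∀ᶠ n : ℕ in atTop, ∀ m : ℕ,
        ‖deriv ((f c)^[n]) (P m c)‖ ≤ Real.exp (a * n)) ∧
    -- parameters with subexponential geometry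
    (∀ c : ℂ, SubexponentialGeometry c → ExpansionAtMost c 0) ∧
    -- all parameters
    ∀ ψ : ℂ → ℂ, IsExteriorMap mandelbrotSet ψ → ∀ c ∈ mandelbrotSet, ∀ A : ℝ, 0 ≤ A →
      ExpansionAtMost c A →
      -- harmonic measure and Green's function of small discs
      (∀ κ : ℝ, 0 < κ → κ * A < Real.log 2 → ∀ᶠ r : ℝ in 𝓝[>] 0,
        harm ψ c r < r ^ κ ∧ green ψ c r < r ^ κ) ∧
      -- derivatives with respect to the parameter
      (∀ a : ℝ, A < a → ∀ᶠ n : ℕ in atTop, ‖deriv (P n) c‖ < Real.exp (a * n)) ∧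
      -- the loop
      ∀ F : ℂ → ℂ, ContinuousOn F {w : ℂ | 1 ≤ ‖w‖} → (∀ w : ℂ, 1 < ‖w‖ → F w = ψ w) →
        ∀ ζ : ℂ, ‖ζ‖ = 1 → F ζ = c → ∀ α : ℝ, 0 < α → A < α * Real.log 2 →
          ∀ᶠ δ : ℝ in 𝓝[>] 0, ∃ ξ : ℂ, ‖ξ‖ = 1 ∧ ‖ξ - ζ‖ ≤ δ ∧ δ ^ α ≤ ‖F ξ - F ζ‖ := by
  obtain ⟨β, hβ⟩ := exists_beta (d := 2) le_rfl
  refine ⟨⟨_, exteriorMap_of_beta hβ⟩,
    fun c hc => ⟨(real_growth hc).1, expansion_of_real hc, (real_growth hc).2⟩,
    fun c hc => expansion_of_geometry hc, ?_⟩
  intro ψ hψ c hc A hA h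
  have hlog2 : 0 < Real.log 2 := Real.log_pos (by norm_num)
  have hvol : ∀ κ : ℝ, 0 < κ → κ * A < Real.log 2 → ∀ᶠ r : ℝ in 𝓝[>] 0, harm ψ c r < r ^ κ := by
    intro κ hκ hκA
    by_contra hcon
    rw [not_eventually] at hcon
    exact not_big hψ hc hA h hκ hκA (Pool.Agent.Y736.RN.big_of_vol (d := 2) le_rfl hψ hc hκ
      (hcon.mono fun r hr => not_lt.1 hr))
  refine ⟨fun κ hκ hκA => (hvol κ hκ hκA).and ?_, ?_, ?_⟩
  · by_contra hcon
    rw [not_eventually] at hcon
    exact not_big hψ hc hA h hκ hκA (Pool.Agent.Y736.RN.big_of_green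
      (hcon.mono fun r hr => not_lt.1 hr))
  · intro a ha
    by_contra hcon
    rw [not_eventually] at hcon
    have ha0 : 0 < a := by linarith
    obtain ⟨κ, hκ1, hκ2⟩ : ∃ κ, Real.log 2 < κ * a ∧ κ * A < Real.log 2 := by
      rcases hA.eq_or_lt with hA0 | hA0
      · refine ⟨(Real.log 2 + 1) / a, ?_, ?_⟩
        · rw [div_mul_cancel₀ _ ha0.ne']
          linarith
        · rw [← hA0, mul_zero]
          exact hlog2
      · have h1 : Real.log 2 / a < Real.log 2 / A := by gcongr
        obtain ⟨κ, h2, h3⟩ := exists_between h1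
        rw [div_lt_iff₀ ha0] at h2
        rw [lt_div_iff₀ hA0] at h3
        exact ⟨κ, h2, h3⟩
    have hκ0 : 0 < κ := by
      by_contra h3
      push Not at h3
      have : κ * a ≤ 0 := mul_nonpos_of_nonpos_of_nonneg h3 ha0.le
      linarith
    exact not_big hψ hc hA h hκ0 hκ2 (Pool.Agent.Y736.RN.big_of_deriv (d := 2) le_rfl hψ hc hκ0
      (by exact_mod_cast hκ1) (hcon.mono fun n hn => not_lt.1 hn))
  · intro F hF hE ζ hζ hFζ α hα hAα
    obtain ⟨κ, hκ1, hκ2⟩ : ∃ κ, 1 < α * κ ∧ κ * A < Real.log 2 := by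
      rcases hA.eq_or_lt with hA0 | hA0
      · refine ⟨2 / α, ?_, ?_⟩
        · rw [mul_div_cancel₀ _ hα.ne']
          norm_num
        · rw [← hA0, mul_zero]
          exact hlog2
      · have h1 : 1 / α < Real.log 2 / A := by
          rw [div_lt_div_iff₀ hα hA0]
          linarith
        obtain ⟨κ, h2, h3⟩ := exists_between h1
        rw [div_lt_iff₀ hα] at h2
        rw [lt_div_iff₀ hA0] at h3
        exact ⟨κ, by linarith, h3⟩
    have hκ0 : 0 < κ := by
      by_contra h3
      push Not at h3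
      have : α * κ ≤ 0 := mul_nonpos_of_nonneg_of_nonpos hα.le h3
      linarith
    exact loop_osc hα hκ1 (hvol κ hκ0 hκ2) hF hE hζ hFζ

end Pool.Agent.Results.MP_c6f924_an.MaximalExpansion
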