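import Pool.Prelude.Def_F_c31e40fa
import Pool.Agent.U334.PB.Main

/-!
# MP_c6f924_an: the Mandelbrot set at its parabolic parameters

`M` is the Mandelbrot set and `ψ` the conformal map from the exterior of the unit disc onto the
complement of `M` (`IsExteriorMap`); `M` is locally connected if and only if `ψ` extends continuously
to the closed exterior of the disc (Carathéodory).

We call `M` flat of order `p > 0` at `c₀ ∈ M` (`Flat p c₀`) if there are `A, K > 0` such that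

1. at most `K (n + 2 ^ n exp (- A / r ^ p))` centres of hyperbolic components of period dividing `n`
   are at distance less than `r` from `c₀`, for all `n ≥ 1` and `r > 0`;
2. `log |w| ≤ K exp (- A / |ψ(w) - c₀| ^ p)` for `1 < |w| ≤ 2`: Green's function of `M` is as flat as
   this at `c₀`;
3. the harmonic measure of the disc with centre `c₀` and radius `r` is at most
   `K exp (- A / r ^ p)` (the measure of the set of the angles of the rays which land in the disc);
4. if `M` is locally connected, that is if `ψ` has a continuous extension `F`, then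
   `|F((1 + s) ζ) - F(ζ)| ^ p ≥ A / log (K / s)` for all `ζ` of modulus one with `F(ζ) = c₀` and all
   `0 < s ≤ 1` (and there is such a `ζ` if `c₀` is on the boundary of `M`): the modulus of continuity
   of the Carathéodory loop at these points is at least `c (1 / log (1 / s)) ^ (1 / p)`.

**Theorem.** (a) `M` is flat of order `1 / 2` at every parabolic parameter `c₀`: for some `N ≥ 1` and
`z₀` we have `f^N(z₀) = z₀`, `(f^N)'(z₀) = 1` and `f^(N k)(0) → z₀` for `f(z) = z ^ 2 + c₀`.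
(b) `M` is flat of order `1` at the boundary point `-3/4`, and this is sharp: the supremum of `|w| - 1`
over `|ψ(w) + 3/4| ≤ ρ` is at least `exp (- C / ρ)`. So the Carathéodory loop, if it exists, has a
modulus of continuity which is at least `c / log (1 / s)`.

The proof uses theorems of the starting library which were not handed in: `Pool.Agent.Y736.HL`
(comparison of the critical orbits of two nearby parameters, and the bound for the derivatives along
the critical orbit of a parabolic parameter), `Pool.Agent.W677.MB` (the parameter `-3/4`) and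
`Pool.Agent.R240.LL4` (local law for the centres). The combination is in `Pool.Agent.U334.PB.Main`.
-/

set_option autoImplicit false

namespace Pool.Agent.Results.MP_c6f924_an.ParabolicParameters

open Complex Metric Set Filter Topology MeasureTheory
open N62a1eb23
open Pool.Agent.H713R2 (IsExteriorMap)

/-- The angles in `(0, 2 π]` of the parameter rays which land at a point at distance less than `r`
from `c`. -/
def angles (ψ : ℂ → ℂ) (c : ℂ) (r : ℝ) : Set ℝ :=
  {θ | θ ∈ Ioc 0 (2 * Real.pi) ∧ ∃ ζ ∈ ball c r,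
    Tendsto (fun ρ : ℝ => ψ (ρ * exp (θ * I))) (𝓝[>] 1) (𝓝 ζ)}

/-- `M` is flat of order `p` at `c₀`: see the text above. -/
def Flat (p : ℝ) (c₀ : ℂ) : Prop :=
  ∃ A K : ℝ, 0 < A ∧ 0 < K ∧
    (∀ (n : ℕ) (r : ℝ), 1 ≤ n → 0 < r →
      ({c : ℂ | ‖c - c₀‖ < r ∧ (fun z : ℂ => z ^ 2 + c)^[n] 0 = 0}.ncard : ℝ) ≤
        K * (n + 2 ^ n * Real.exp (-(A / r ^ p)))) ∧
    ∀ ψ : ℂ → ℂ, IsExteriorMap mandelbrotSet ψ →
      (∀ w : ℂ, 1 < ‖w‖ → ‖w‖ ≤ 2 →
        Real.log ‖w‖ ≤ K * Real.exp (-(A / ‖ψ w - c₀‖ ^ p))) ∧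
      (∀ r : ℝ, 0 < r → (volume (angles ψ c₀ r)).toReal ≤ K * Real.exp (-(A / r ^ p))) ∧
      (∀ F : ℂ → ℂ, ContinuousOn F {w | 1 ≤ ‖w‖} → (∀ w, 1 < ‖w‖ → F w = ψ w) →
        (c₀ ∈ frontier mandelbrotSet → ∃ ζ : ℂ, ‖ζ‖ = 1 ∧ F ζ = c₀) ∧
        ∀ ζ : ℂ, ‖ζ‖ = 1 → F ζ = c₀ → ∀ s : ℝ, 0 < s → s ≤ 1 →
          A ≤ ‖F ((1 + s) * ζ) - F ζ‖ ^ p * Real.log (K / s))

/-- **The Mandelbrot set at its parabolic parameters.** -/
theorem result :
    (∀ (c₀ z₀ : ℂ) (N : ℕ), c₀ ∈ mandelbrotSet → 1 ≤ N →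
      (fun z : ℂ => z ^ 2 + c₀)^[N] z₀ = z₀ →
      deriv ((fun z : ℂ => z ^ 2 + c₀)^[N]) z₀ = 1 →
      Tendsto (fun k : ℕ => (fun z : ℂ => z ^ 2 + c₀)^[N * k] 0) atTop (𝓝 z₀) →
      Flat (1 / 2) c₀) ∧
    (-3 / 4 : ℂ) ∈ frontier mandelbrotSet ∧ Flat 1 (-3 / 4) ∧
    ∃ C : ℝ, 0 < C ∧ ∀ ψ : ℂ → ℂ, IsExteriorMap mandelbrotSet ψ → ∀ ρ : ℝ, 0 < ρ → ρ ≤ 1 →
      ∃ w : ℂ, 1 < ‖w‖ ∧ ‖ψ w - (-3 / 4)‖ ≤ ρ ∧ Real.exp (-(C / ρ)) ≤ ‖w‖ - 1 := by
  refine ⟨fun c₀ z₀ N hc₀ hN hfix hder hlim => ?_, Pool.Agent.U334.PB.frontier34, ?_,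
    Pool.Agent.U334.PB.sharp34⟩
  · obtain ⟨A, hA, h⟩ := Pool.Agent.U334.PB.parabolic hc₀ hN hfix hder hlim
    exact Pool.Agent.U334.PB.flat_of hc₀ hA (by norm_num) (by norm_num) h
  · obtain ⟨A, hA, h⟩ := Pool.Agent.U334.PB.basilica
    exact Pool.Agent.U334.PB.flat_of Pool.Agent.W677.MB.mem34 hA (Real.exp_pos 1) one_pos h

end Pool.Agent.Results.MP_c6f924_an.ParabolicParameters
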