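import Mathlib
import Pool.Prelude.Def_F_c31e40fa
import Pool.Agent.U256.SE2
import Pool.Agent.U256.RR.H2

set_option autoImplicit false

/-!
# Stretched exponential decay of harmonic measure at parameters with polynomial derivative growth

Let `c` be a parameter of the Mandelbrot set `M` such that the derivatives of the iterates `f_c^n`
along the critical orbit are `O(n^s)`. Then the harmonic measure and Green's function of discs of
radius `r` about `c` are at most `exp (-A r^(-1/(2s+2)))`, and if `M` is locally connected, then the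
Caratheodory loop has at most the modulus of continuity of a power of `1 / log` at `c`.
The hypothesis holds with `s = 0` at the parabolic parameters, and with some `s` at the infinitely
renormalizable parameters of bounded type with a priori bounds.

It also holds, UNCONDITIONALLY, at all real infinitely renormalizable parameters of bounded type. For
this we prove real a priori bounds with an explicit constant: if `p_0 = 1`, `p_1`, `p_2`, … are the
periods of a real infinitely renormalizable `f_c` of any type, then all the derivatives of `f_c^(p_k)`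
at the points `f_c^(n p_k) (0)` are at most `136`.

Proof of the a priori bounds: let `p = p_k`, let `a` be the supremum of the `|f_c^(n p) (0)|`, and let
`J_i = f_c^i [-a, a]`, `1 ≤ i ≤ p`, a cycle of intervals: `f_c (J_p) = J_1`. Let `J_s` be the shortest
one. `f_c^(s-1)` is monotone on an interval around `J_1` which it maps onto the neighbourhood of `J_s`
of size `|J_s|`, as the largest interval on which it is monotone covers on both sides another `J_i` or
is unbounded. Cross ratios are increased, so the part of this interval on the right of `J_1` has at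
least the length `|J_1| / 3`. It contains no `J_i` in its interior, because `J_s` is the shortest. So
no `J_i`, `i < p`, is contained in `(-9/8 a, 9/8 a)`, and the largest interval around `J_1` on which
`f_c^(p-1)` is monotone is mapped onto an interval which contains the neighbourhood of `J_p` of size
`a / 8`. By the cross ratio inequality again, the derivative of `f_c^(p-1)` on `J_1` is at most
`68 a / a ^ 2`.
-/

open Filter Topology Set Metric MeasureTheory Complex N62a1eb23

namespace Pool.Agent.Results.MP_c6f924_an.StretchedExponential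

open Pool.Agent.H713R2

/-- The map `z ↦ z ^ 2 + c`. -/
def f (c : ℂ) : ℂ → ℂ := fun z => z ^ 2 + c

/-- The point `f_c^n (0)` of the critical orbit. -/
def P (n : ℕ) (c : ℂ) : ℂ := (f c)^[n] 0

/-- The angles `t ∈ (0, 2π]` of the external rays landing at distance less than `r` from `c₀`. -/
def angles (ψ : ℂ → ℂ) (c₀ : ℂ) (r : ℝ) : Set ℝ :=
  {t | t ∈ Ioc 0 (2 * Real.pi) ∧ ∃ ζ ∈ ball c₀ r,
    Tendsto (fun ρ : ℝ => ψ (ρ * exp (t * I))) (𝓝[>] 1) (𝓝 ζ)}

/-- The harmonic measure (from infinity) of the disc of radius `r`, up to the factor `2π`. -/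
noncomputable def harm (ψ : ℂ → ℂ) (c₀ : ℂ) (r : ℝ) : ℝ := (volume (angles ψ c₀ r)).toReal

/-- The maximum over a disc of Green's function of the complement of the Mandelbrot set: Green's
function is `log ‖w‖` at the point `ψ w`. -/
noncomputable def green (ψ : ℂ → ℂ) (c₀ : ℂ) (r : ℝ) : ℝ :=
  sSup {x | ∃ w : ℂ, 1 < ‖w‖ ∧ ‖ψ w - c₀‖ ≤ r ∧ Real.log ‖w‖ = x}

/-- The derivatives of the iterates along the critical orbit are `O(n ^ s)`. -/
def PolynomialGrowth (c : ℂ) (s : ℝ) : Prop :=
  ∃ C : ℝ, ∀ m n : ℕ, ‖deriv ((f c)^[n]) (P m c)‖ ≤ C * ((n : ℝ) + 1) ^ s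

/-- `c` is parabolic: some points `f_c^(N k) (0)`, `k → ∞`, of the critical orbit converge to a
periodic point with multiplier one. -/
def Parabolic (c : ℂ) : Prop :=
  ∃ (N : ℕ) (z₀ : ℂ), 1 ≤ N ∧ (f c)^[N] z₀ = z₀ ∧ deriv ((f c)^[N]) z₀ = 1 ∧
    Tendsto (fun k => P (N * k) c) atTop (𝓝 z₀)

/-- Bounded type and a priori bounds: there are periods `p 0 = 1`, `p 1`, `p 2`, … with bounded
ratios `p (k + 1) / p k ∈ {2, 3, …}` such that for every `k` the points `f_c^(n p_k) (0)`, `n ≥ 0`,
have a common distance `r` from the complement of a set `U` whose image under `f_c^(p_k)` has a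
diameter at most `C r`, where `C` does not depend on `k`. The infinitely renormalizable maps of
bounded type with a priori bounds have this property. -/
def BoundedType (c : ℂ) : Prop :=
  ∃ (p : ℕ → ℕ) (B : ℕ) (C : ℝ), p 0 = 1 ∧ ∀ k : ℕ, p k ∣ p (k + 1) ∧ p k < p (k + 1) ∧
    p (k + 1) ≤ B * p k ∧ ∃ (U : Set ℂ) (r : ℝ), 0 < r ∧ (∀ n : ℕ, ball (P (n * p k) c) r ⊆ U) ∧
      ∀ z ∈ U, ∀ z' ∈ U, dist ((f c)^[p k] z) ((f c)^[p k] z') ≤ C * r

/-- The map `x ↦ x ^ 2 + c` of the real line. -/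
def fR (c : ℝ) : ℝ → ℝ := fun x => x ^ 2 + c

/-- The real map `f_c` is infinitely renormalizable with the periods `p 0 = 1`, `p 1`, `p 2`, …: each is
a proper divisor of the next one, and there are numbers `β 0 > β 1 > … > 0` such that for every `k`
the map `f_c^(p k)` maps the interval `[-β k, β k]` into itself, and any two of the `p k` intervals
`f_c^i [-β k, β k]`, `i < p k`, have at most one point in common. -/
def RealPeriods (c : ℝ) (p : ℕ → ℕ) : Prop :=
  p 0 = 1 ∧ ∃ β : ℕ → ℝ, ∀ k : ℕ, 0 < p k ∧ p k ∣ p (k + 1) ∧ p k < p (k + 1) ∧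
    0 < β k ∧ β (k + 1) < β k ∧
    MapsTo ((fR c)^[p k]) (Icc (-β k) (β k)) (Icc (-β k) (β k)) ∧
    ∀ i j : ℕ, i < j → j < p k →
      (((fR c)^[i] '' Icc (-β k) (β k)) ∩ ((fR c)^[j] '' Icc (-β k) (β k))).Subsingleton

theorem growth_iff {c : ℂ} {m N : ℕ} :
    ‖deriv ((f c)^[N]) (P m c)‖ = Pool.Agent.Y736.HL.LL c m (m + N) :=
  Pool.Agent.Y736.HL.norm_deriv_iter c m N

theorem growth_of_parabolic {c : ℂ} (hc : c ∈ multibrotSet 2) (h : Parabolic c) :
    PolynomialGrowth c 0 := by
  obtain ⟨N, z₀, hN, h1, h2, h3⟩ := h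
  obtain ⟨C, hC⟩ := Pool.Agent.Y736.HL.parabolic_LL hc hN h1 h2 h3
  refine ⟨C, fun m n => ?_⟩
  rw [growth_iff, Real.rpow_zero, mul_one]
  exact hC m (m + n) (by omega)

theorem growth_of_boundedType {c : ℂ} (h : BoundedType c) :
    ∃ s : ℝ, 0 ≤ s ∧ PolynomialGrowth c s := by
  obtain ⟨p, B, C, h0, h⟩ := h
  have hch : Pool.Agent.U256.SE.Chain c p B (max C 1) := by
    refine ⟨h0, fun k => (h k).1, fun k => (h k).2.1, fun k => (h k).2.2.1, le_max_right _ _, ?_⟩
    intro k i
    obtain ⟨U, r, hr, hball, hdiam⟩ := (h k).2.2.2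
    exact (Pool.Agent.Y736.RN.deriv_le (c := c) (p := p k) (U := U) (C := C) hr hball
      (fun z hz z' hz' => by
        have h2 := hdiam z hz z' hz'
        rw [dist_eq_norm] at h2
        exact h2) i).trans (le_max_left _ _)
  obtain ⟨s, hs, h1⟩ := hch.poly
  refine ⟨s, hs, (max C 1) ^ B, fun m n => ?_⟩
  rw [growth_iff]
  have h2 := h1 m (m + n) (by omega)
  rwa [Nat.add_sub_cancel_left] at h2

/-- **Stretched exponential decay at parameters with polynomial derivative growth.** -/
theorem result :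
    (∃ ψ : ℂ → ℂ, IsExteriorMap mandelbrotSet ψ) ∧
    (∀ c ∈ mandelbrotSet, Parabolic c → PolynomialGrowth c 0) ∧
    (∀ c ∈ mandelbrotSet, BoundedType c → ∃ s : ℝ, 0 ≤ s ∧ PolynomialGrowth c s) ∧
    -- all real infinitely renormalizable parameters
    (∀ (c : ℝ) (p : ℕ → ℕ), RealPeriods c p → (c : ℂ) ∈ mandelbrotSet ∧
      (∀ k n : ℕ, ‖deriv ((f c)^[p k]) (P (n * p k) c)‖ ≤ 136) ∧
      ∀ B : ℕ, (∀ k, p (k + 1) ≤ B * p k) → ∃ s : ℝ, 0 ≤ s ∧ PolynomialGrowth c s) ∧
    ∀ c ∈ mandelbrotSet, ∀ s : ℝ, 0 ≤ s → PolynomialGrowth c s → ∃ A : ℝ, 0 < A ∧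
      ∀ ψ : ℂ → ℂ, IsExteriorMap mandelbrotSet ψ →
        -- harmonic measure and Green's function of small discs
        (∀ᶠ r : ℝ in 𝓝[>] 0, harm ψ c r < Real.exp (-(A * r ^ (-(1 / (2 * s + 2))))) ∧
          green ψ c r < Real.exp (-(A * r ^ (-(1 / (2 * s + 2)))))) ∧
        -- the loop
        ∀ F : ℂ → ℂ, ContinuousOn F {w : ℂ | 1 ≤ ‖w‖} → (∀ w : ℂ, 1 < ‖w‖ → F w = ψ w) →
          ∀ ζ : ℂ, ‖ζ‖ = 1 → F ζ = c → ∀ᶠ δ : ℝ in 𝓝[>] 0,
            ∃ ξ : ℂ, ‖ξ‖ = 1 ∧ ‖ξ - ζ‖ ≤ δ ∧
              (A / Real.log (1 / δ)) ^ (2 * s + 2) ≤ ‖F ξ - F ζ‖ := by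
  obtain ⟨β, hβ⟩ := exists_beta (d := 2) le_rfl
  refine ⟨⟨_, exteriorMap_of_beta hβ⟩, fun c hc h => growth_of_parabolic hc h,
    fun c _ h => growth_of_boundedType h, ?_, ?_⟩
  · rintro c p ⟨hp0, b, h⟩
    have hT : Pool.Agent.U256.RR.Tower 2 c p b := h
    refine ⟨hT.mem, fun k n => ?_, fun B hB => ?_⟩
    · have h1 := hT.complex_bounds le_rfl k n
      refine le_trans (le_of_eq rfl) (h1.trans (le_of_eq ?_))
      norm_num
    · obtain ⟨s, hs, C, hC⟩ := hT.poly le_rfl hp0 hB
      exact ⟨s, hs, C, hC⟩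
  intro c hc s hs h
  obtain ⟨C, hC⟩ := h
  have hD : ∀ m n, m ≤ n → Pool.Agent.Y736.HL.LL c m n ≤
      max C 1 * (((n - m : ℕ) : ℝ) + 1) ^ s := by
    intro m n hmn
    have h1 := hC m (n - m)
    rw [growth_iff, Nat.add_sub_cancel' hmn] at h1
    refine h1.trans ?_
    apply mul_le_mul_of_nonneg_right (le_max_left _ _) (by positivity)
  obtain ⟨A, hA, h2⟩ := Pool.Agent.U256.SE.harm_green hc (le_max_right C 1) hs hD
  refine ⟨A, hA, fun ψ hψ => ⟨h2 ψ hψ, ?_⟩⟩
  intro F hF hE ζ hζ hFζ
  have h3 := Pool.Agent.U256.SE.loop_log (ψ := ψ) (c₀ := c) (β := 1 / (2 * s + 2)) hA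
    (by positivity) ((h2 ψ hψ).mono fun r hr => hr.1) hF hE hζ hFζ
  rw [one_div_one_div] at h3
  exact h3

end Pool.Agent.Results.MP_c6f924_an.StretchedExponential
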